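import Mathlib

/-!
# The chord set of the sine sum `g_n` (MP_174dab_an, Q1)

For every `n ≥ 1` the set of lengths of horizontal chords of `g_n(x) = ∑_{k=1}^n sin (2πkx)` on
`[0,1]` is `[0,1] \ ⋃_{k=1}^n (k/(n+1), k/n)`.
-/

set_option autoImplicit false

open Set Real

namespace Pool.Agent.Results.MP_174dab_an.ChordSet

/-- `g_n(x) = ∑_{k=1}^n sin (2πkx)`. -/
noncomputable def g (n : ℕ) (x : ℝ) : ℝ := ∑ k ∈ Finset.Icc 1 n, Real.sin (2 * π * k * x)

/-- The chord set of `f : [0,1] → ℝ`. -/
def H (f : ℝ → ℝ) : Set ℝ := {ℓ | ℓ ∈ Icc (0 : ℝ) 1 ∧ ∃ x ∈ Icc ℓ 1, f (x - ℓ) = f x}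

/-- `V_n = ⋃_{k=1}^n (k/(n+1), k/n)`. -/
def V (n : ℕ) : Set ℝ := ⋃ k ∈ Finset.Icc 1 n, Ioo ((k : ℝ) / (n + 1)) ((k : ℝ) / n)

/-- the half-difference `∑_{k=1}^n sin(ka) cos(kb)`. -/
noncomputable def C (n : ℕ) (a b : ℝ) : ℝ :=
  ∑ k ∈ Finset.Icc 1 n, Real.sin (k * a) * Real.cos (k * b)

lemma g_diff (n : ℕ) (x ℓ : ℝ) :
    g n x - g n (x - ℓ) = 2 * C n (π * ℓ) (2 * π * x - π * ℓ) := by
  unfold g C
  rw [← Finset.sum_sub_distrib, Finset.mul_sum]
  refine Finset.sum_congr rfl fun k _ => ?_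
  rw [Real.sin_sub_sin]
  have e1 : (2 * π * k * x - 2 * π * k * (x - ℓ)) / 2 = k * (π * ℓ) := by ring
  have e2 : (2 * π * k * x + 2 * π * k * (x - ℓ)) / 2 = k * (2 * π * x - π * ℓ) := by ring
  rw [e1, e2]
  ring

lemma C_mul (n : ℕ) (a b : ℝ) :
    2 * C n a b * (Real.cos b - Real.cos a) = Real.sin a - Real.sin ((n + 1) * a) *
      Real.cos (n * b) + Real.sin (n * a) * Real.cos ((n + 1) * b) := by
  induction n with
  | zero => simp [C]
  | succ n ih =>
    have h : C (n + 1) a b = C n a b +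
        Real.sin (((n + 1 : ℕ) : ℝ) * a) * Real.cos (((n + 1 : ℕ) : ℝ) * b) := by
      unfold C
      rw [Finset.sum_Icc_succ_top (by omega)]
    rw [h]
    push_cast
    have e1 : Real.sin ((n + 1 + 1) * a) + Real.sin (n * a) =
        2 * Real.sin ((n + 1) * a) * Real.cos a := by
      rw [Real.sin_add_sin]
      congr 2
      · ring_nf
      · ring_nf
    have e2 : Real.cos ((n + 1 + 1) * b) + Real.cos (n * b) =
        2 * Real.cos ((n + 1) * b) * Real.cos b := by
      rw [Real.cos_add_cos]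
      congr 2
      · ring_nf
      · ring_nf
    linear_combination ih - Real.sin ((n + 1) * a) * e2 + Real.cos ((n + 1) * b) * e1

lemma C_diag (n : ℕ) (a : ℝ) :
    2 * C n a a * Real.sin a = Real.sin (n * a) * Real.sin ((n + 1) * a) := by
  induction n with
  | zero => simp [C]
  | succ n ih =>
    have h : C (n + 1) a a = C n a a +
        Real.sin (((n + 1 : ℕ) : ℝ) * a) * Real.cos (((n + 1 : ℕ) : ℝ) * a) := by
      unfold C
      rw [Finset.sum_Icc_succ_top (by omega)]
    rw [h]
    push_cast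
    have e1 : Real.sin ((n + 1 + 1) * a) - Real.sin (n * a) =
        2 * Real.sin a * Real.cos ((n + 1) * a) := by
      rw [Real.sin_sub_sin]
      congr 2
      · ring_nf
      · ring_nf
    linear_combination ih - Real.sin ((n + 1) * a) * e1

/-- the key inequality: for `ℓ` in one of the intervals `(k/(n+1), k/n)` there is no chord. -/
lemma C_neg {n k : ℕ} {a b u v : ℝ} (ha : 0 < a) (haπ : a < π) (hu : 0 < u) (hv : 0 < v)
    (hna : n * a = k * π - u) (hna1 : (n + 1) * a = k * π + v) (hb : Real.cos b ≤ Real.cos a)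
    (hb' : b = a ∨ Real.cos b = Real.cos a → C n a b = C n a a) : C n a b < 0 := by
  have huv : u + v = a := by nlinarith
  have hsu : 0 < Real.sin u := Real.sin_pos_of_pos_of_lt_pi hu (by linarith)
  have hsv : 0 < Real.sin v := Real.sin_pos_of_pos_of_lt_pi hv (by linarith)
  have hsa : 0 < Real.sin a := Real.sin_pos_of_pos_of_lt_pi ha haπ
  have s1 : Real.sin (n * a) = -((-1) ^ k * Real.sin u) := by
    rw [hna, Real.sin_sub, Real.sin_nat_mul_pi, Real.cos_nat_mul_pi]; ring
  have s2 : Real.sin ((n + 1) * a) = (-1) ^ k * Real.sin v := by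
    rw [hna1, Real.sin_add, Real.sin_nat_mul_pi, Real.cos_nat_mul_pi]; ring
  have hk : ((-1 : ℝ) ^ k) ^ 2 = 1 := by rw [← pow_mul, mul_comm, pow_mul]; norm_num
  rcases hb.lt_or_eq with hlt | heq
  · have h1 := C_mul n a b
    rw [s1, s2] at h1
    set e : ℝ := (-1 : ℝ) ^ k with he
    set X : ℝ := Real.sin v * Real.cos (n * b) + Real.sin u * Real.cos ((n + 1) * b) with hX
    have h2 : 2 * C n a b * (Real.cos b - Real.cos a) = Real.sin a - e * X := by
      rw [h1, hX]; ring
    have hXle : X ^ 2 ≤ Real.sin v ^ 2 + Real.sin u ^ 2 + 2 * Real.sin u * Real.sin v *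
        Real.cos b := by
      have e1 : Real.cos ((n + 1) * b) = Real.cos (n * b) * Real.cos b -
          Real.sin (n * b) * Real.sin b := by
        rw [← Real.cos_add]; ring_nf
      have p1 := Real.sin_sq_add_cos_sq (n * b)
      have p2 := Real.sin_sq_add_cos_sq b
      set c := Real.cos (n * b)
      set s := Real.sin (n * b)
      have e2 : X = c * (Real.sin v + Real.sin u * Real.cos b) -
          s * (Real.sin u * Real.sin b) := by rw [hX, e1]; ring
      have e3 : X ^ 2 + (s * (Real.sin v + Real.sin u * Real.cos b) +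
          c * (Real.sin u * Real.sin b)) ^ 2 = Real.sin v ^ 2 + Real.sin u ^ 2 +
            2 * Real.sin u * Real.sin v * Real.cos b := by
        rw [e2]
        linear_combination ((Real.sin v + Real.sin u * Real.cos b) ^ 2 +
          (Real.sin u * Real.sin b) ^ 2) * p1 + (Real.sin u) ^ 2 * p2
      nlinarith [sq_nonneg (s * (Real.sin v + Real.sin u * Real.cos b) +
          c * (Real.sin u * Real.sin b))]
    have hsin : Real.sin a ^ 2 = Real.sin v ^ 2 + Real.sin u ^ 2 + 2 * Real.sin u * Real.sin v *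
        Real.cos a := by
      rw [← huv, Real.sin_add, Real.cos_add]
      have p1 := Real.sin_sq_add_cos_sq u
      have p2 := Real.sin_sq_add_cos_sq v
      linear_combination (-(Real.sin v) ^ 2) * p1 - (Real.sin u) ^ 2 * p2 +
        2 * (Real.sin u) ^ 2 * p2 + 2 * (Real.sin v) ^ 2 * p1
    have hlt' : X ^ 2 < Real.sin a ^ 2 := by
      have : 0 < Real.sin u * Real.sin v * (Real.cos a - Real.cos b) :=
        mul_pos (mul_pos hsu hsv) (by linarith)
      nlinarith
    have h3 : (e * X) ^ 2 < Real.sin a ^ 2 := by rw [mul_pow, hk, one_mul]; exact hlt'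
    have h4 : e * X < Real.sin a := lt_of_pow_lt_pow_left₀ 2 hsa.le h3
    nlinarith
  · rw [hb' (Or.inr heq)]
    have h1 := C_diag n a
    rw [s1, s2] at h1
    have h2 : 2 * C n a a * Real.sin a = -(Real.sin u * Real.sin v) := by
      rw [h1]; linear_combination (-(Real.sin u * Real.sin v)) * hk
    have h3 := mul_pos hsu hsv
    by_contra hcon
    push Not at hcon
    nlinarith [mul_nonneg hcon hsa.le]

lemma C_refl (n : ℕ) (a b : ℝ) : C n a (2 * π - b) = C n a b := by
  unfold C
  refine Finset.sum_congr rfl fun k _ => ?_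
  congr 1
  have : (k : ℝ) * (2 * π - b) = k * (2 * π) - k * b := by ring
  rw [this, Real.cos_nat_mul_two_pi_sub]

lemma no_chord {n k : ℕ} (hk1 : 1 ≤ k) (hkn : k ≤ n) {ℓ x : ℝ} (h1 : (k : ℝ) / (n + 1) < ℓ)
    (h2 : ℓ < (k : ℝ) / n) (hx1 : ℓ ≤ x) (hx2 : x ≤ 1) : g n (x - ℓ) ≠ g n x := by
  have hn : (0 : ℝ) < n := by exact_mod_cast (by omega : 0 < n)
  have hk : (0 : ℝ) < k := by exact_mod_cast (by omega : 0 < k)
  rw [div_lt_iff₀ (by linarith)] at h1
  rw [lt_div_iff₀ hn] at h2
  have hℓ0 : 0 < ℓ := by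
    by_contra h; push Not at h; nlinarith
  have hkn' : (k : ℝ) ≤ n := by exact_mod_cast hkn
  have hℓ1 : ℓ < 1 := by
    by_contra h; push Not at h; nlinarith
  have hπ := Real.pi_pos
  intro h
  have hd := g_diff n x ℓ
  rw [h, sub_self] at hd
  set a := π * ℓ with ha
  set b := 2 * π * x - π * ℓ with hb
  have ha0 : 0 < a := mul_pos hπ hℓ0
  have haπ : a < π := by rw [ha]; nlinarith
  have hab : a ≤ b := by rw [ha, hb]; nlinarith
  have hb2 : b ≤ 2 * π - a := by rw [ha, hb]; nlinarith
  have hC : C n a b < 0 := by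
    refine C_neg (u := k * π - n * a) (v := (n + 1) * a - k * π) (k := k) ha0 haπ ?_ ?_
      (by ring) (by ring) ?_ ?_
    · rw [ha]; nlinarith
    · rw [ha]; nlinarith
    · rcases le_total b π with hbπ | hbπ
      · exact Real.cos_le_cos_of_nonneg_of_le_pi ha0.le hbπ hab
      · rw [← Real.cos_two_pi_sub b]
        exact Real.cos_le_cos_of_nonneg_of_le_pi ha0.le (by linarith) (by linarith)
    · intro hh
      have hcos : Real.cos b = Real.cos a := by
        rcases hh with hh | hh
        · rw [hh]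
        · exact hh
      rcases le_total b π with hbπ | hbπ
      · have : b = a := Real.injOn_cos ⟨by linarith, hbπ⟩ ⟨ha0.le, haπ.le⟩ hcos
        rw [this]
      · have : 2 * π - b = a := by
          apply Real.injOn_cos ⟨by linarith, by linarith⟩ ⟨ha0.le, haπ.le⟩
          rw [Real.cos_two_pi_sub, hcos]
        rw [← C_refl, this]
  linarith

lemma chord {n : ℕ} {ℓ : ℝ} (h0 : 0 < ℓ) (h1 : ℓ < 1) (hV : ℓ ∉ V n) (hn : 1 ≤ n) :
    ∃ x ∈ Icc ℓ 1, g n (x - ℓ) = g n x := by
  have hπ := Real.pi_pos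
  have hn' : (0 : ℝ) < n := by exact_mod_cast (by omega : 0 < n)
  set a := π * ℓ with ha
  have ha0 : 0 < a := mul_pos hπ h0
  have haπ : a < π := by rw [ha]; nlinarith
  have hsa : 0 < Real.sin a := Real.sin_pos_of_pos_of_lt_pi ha0 haπ
  -- the value at `a`
  have hCa : 0 ≤ C n a a := by
    have h2 := C_diag n a
    have h3 : 0 ≤ Real.sin (n * a) * Real.sin ((n + 1) * a) := by
      set k := ⌊(n + 1) * ℓ⌋₊ with hk
      have hk1 : (k : ℝ) ≤ (n + 1) * ℓ := Nat.floor_le (by positivity)
      have hk2 : (n + 1) * ℓ < k + 1 := Nat.lt_floor_add_one _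
      rcases hk1.lt_or_eq with hlt | heq
      · have hk3 : (k : ℝ) ≤ n * ℓ := by
          by_contra hcon
          push Not at hcon
          apply hV
          have hk0 : 1 ≤ k := by
            by_contra hk0
            have : k = 0 := by omega
            rw [this] at hcon
            push_cast at hcon
            nlinarith [mul_pos hn' h0]
          have hkn : k ≤ n := by
            have : (k : ℝ) < n + 1 := by nlinarith
            have : k < n + 1 := by exact_mod_cast this
            omega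
          unfold V
          simp only [mem_iUnion]
          refine ⟨k, Finset.mem_Icc.mpr ⟨hk0, hkn⟩, ?_, ?_⟩
          · rw [div_lt_iff₀ (by positivity)]; linarith
          · rw [lt_div_iff₀ hn']; linarith
        have hkk : ((-1 : ℝ) ^ k) * (-1) ^ k = 1 := by
          rw [← mul_pow]; norm_num
        have s1 : Real.sin (n * a) = (-1) ^ k * Real.sin (n * a - k * π) := by
          rw [Real.sin_sub_nat_mul_pi]
          linear_combination (-(Real.sin (n * a))) * hkk
        have s2 : Real.sin ((n + 1) * a) = (-1) ^ k * Real.sin ((n + 1) * a - k * π) := by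
          rw [Real.sin_sub_nat_mul_pi]
          linear_combination (-(Real.sin ((n + 1) * a))) * hkk
        rw [s1, s2]
        have t1 : 0 ≤ Real.sin (n * a - k * π) :=
          Real.sin_nonneg_of_nonneg_of_le_pi (by rw [ha]; nlinarith) (by rw [ha]; nlinarith)
        have t2 : 0 ≤ Real.sin ((n + 1) * a - k * π) :=
          Real.sin_nonneg_of_nonneg_of_le_pi (by rw [ha]; nlinarith) (by rw [ha]; nlinarith)
        have := mul_nonneg t1 t2
        have e : (-1) ^ k * Real.sin (n * a - k * π) * ((-1) ^ k *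
            Real.sin ((n + 1) * a - k * π)) =
            Real.sin (n * a - k * π) * Real.sin ((n + 1) * a - k * π) := by
          linear_combination (Real.sin (n * a - k * π) * Real.sin ((n + 1) * a - k * π)) * hkk
        rw [e]
        exact this
      · have : (n + 1) * a = k * π := by rw [ha, heq]; ring
        rw [this, Real.sin_nat_mul_pi, mul_zero]
    by_contra hcon
    push Not at hcon
    nlinarith [mul_pos (neg_pos.mpr hcon) hsa]
  -- a point where the value is nonpositive
  have hCc : Continuous (fun b => C n a b) := by unfold C; fun_prop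
  obtain ⟨b1, hb1, hCb1⟩ : ∃ b ∈ Ioo a (2 * π - a), C n a b ≤ 0 := by
    have hS : ∀ b, HasDerivAt (fun b : ℝ => ∑ k ∈ Finset.Icc 1 n,
        Real.sin (k * a) * (Real.sin (k * b) / k)) (C n a b) b := by
      intro b
      unfold C
      apply HasDerivAt.fun_sum
      intro k hk
      have hk0 : (k : ℝ) ≠ 0 := by
        have := (Finset.mem_Icc.mp hk).1
        exact_mod_cast (by omega : k ≠ 0)
      apply HasDerivAt.const_mul
      have h1 : HasDerivAt (fun b : ℝ => (k : ℝ) * b) (k * 1) b := (hasDerivAt_id b).const_mul _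
      have h2 := (h1.sin).div_const (k : ℝ)
      convert! h2 using 1
      field_simp
    obtain ⟨b, hb, hbs⟩ := exists_hasDerivAt_eq_slope (fun b : ℝ => ∑ k ∈ Finset.Icc 1 n,
        Real.sin (k * a) * (Real.sin (k * b) / k)) (fun b => C n a b)
      (show a < 2 * π - a by linarith) (fun b _ => (hS b).continuousAt.continuousWithinAt)
      (fun b _ => hS b)
    refine ⟨b, hb, ?_⟩
    rw [hbs]
    apply div_nonpos_of_nonpos_of_nonneg _ (by linarith)
    rw [← Finset.sum_sub_distrib]
    apply Finset.sum_nonpos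
    intro k hk
    have hk0 : (0 : ℝ) < k := by
      have := (Finset.mem_Icc.mp hk).1
      exact_mod_cast (by omega : 0 < k)
    have e : Real.sin (k * (2 * π - a)) = -Real.sin (k * a) := by
      have : (k : ℝ) * (2 * π - a) = k * (2 * π) - k * a := by ring
      rw [this, Real.sin_nat_mul_two_pi_sub]
    rw [e]
    have : Real.sin (k * a) * (-Real.sin (k * a) / k) - Real.sin (k * a) *
        (Real.sin (k * a) / k) = -(2 * (Real.sin (k * a) ^ 2 / k)) := by ring
    rw [this]
    have : 0 ≤ Real.sin (k * a) ^ 2 / k := by positivity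
    linarith
  obtain ⟨b, hb, hCb⟩ : (0 : ℝ) ∈ (fun b => C n a b) '' Icc a b1 :=
    intermediate_value_Icc' hb1.1.le hCc.continuousOn ⟨hCb1, hCa⟩
  refine ⟨(b + a) / (2 * π), ⟨?_, ?_⟩, ?_⟩
  · rw [le_div_iff₀ (by positivity)]
    nlinarith [hb.1]
  · rw [div_le_one (by positivity)]
    linarith [hb.2, hb1.2]
  · have hd := g_diff n ((b + a) / (2 * π)) ℓ
    have e : 2 * π * ((b + a) / (2 * π)) - π * ℓ = b := by
      rw [mul_div_cancel₀ _ (by positivity)]
      rw [ha]; ring
    rw [e] at hd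
    simp only at hCb
    rw [← ha, hCb] at hd
    linarith

/-- **Theorem.** For every `n ≥ 1`: `H(g_n) = [0,1] \ V_n`, and `H(g_n)^* = V_n ∪ (1,∞)`. -/
theorem result (n : ℕ) (hn : 1 ≤ n) :
    H (g n) = Icc 0 1 \ V n ∧ Ici 0 \ H (g n) = V n ∪ Ioi 1 := by
  have hn' : (0 : ℝ) < n := by exact_mod_cast (by omega : 0 < n)
  have hVsub : V n ⊆ Ioo 0 1 := by
    intro ℓ hℓ
    unfold V at hℓ
    simp only [mem_iUnion] at hℓ
    obtain ⟨k, hk, h1, h2⟩ := hℓ
    obtain ⟨hk1, hkn⟩ := Finset.mem_Icc.mp hk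
    have hk0 : (0 : ℝ) < k := by exact_mod_cast (by omega : 0 < k)
    have hkn' : (k : ℝ) ≤ n := by exact_mod_cast hkn
    exact ⟨lt_trans (by positivity) h1, lt_of_lt_of_le h2 ((div_le_one hn').mpr hkn')⟩
  have hH : H (g n) = Icc 0 1 \ V n := by
    ext ℓ
    constructor
    · rintro ⟨hℓ, x, hx, hx'⟩
      refine ⟨hℓ, fun hV => ?_⟩
      unfold V at hV
      simp only [mem_iUnion] at hV
      obtain ⟨k, hk, h1, h2⟩ := hV
      obtain ⟨hk1, hkn⟩ := Finset.mem_Icc.mp hk
      exact no_chord hk1 hkn h1 h2 hx.1 hx.2 hx'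
    · rintro ⟨hℓ, hV⟩
      refine ⟨hℓ, ?_⟩
      rcases hℓ.1.lt_or_eq with h0 | h0
      · rcases hℓ.2.lt_or_eq with h1 | h1
        · exact chord h0 h1 hV hn
        · refine ⟨1, ⟨hℓ.2, le_rfl⟩, ?_⟩
          rw [h1, sub_self]
          unfold g
          refine Finset.sum_congr rfl fun k _ => ?_
          have : 2 * π * (k : ℝ) * 1 = k * (2 * π) := by ring
          rw [this, mul_zero, Real.sin_zero]
          have := Real.sin_nat_mul_pi (k * 2)
          push_cast at this
          rw [← this]; ring_nf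
      · exact ⟨0, ⟨h0.symm.le, zero_le_one⟩, by rw [← h0, sub_zero]⟩
  refine ⟨hH, ?_⟩
  rw [hH]
  ext ℓ
  constructor
  · rintro ⟨h1, h2⟩
    by_contra hcon
    simp only [mem_union, mem_Ioi, not_or, not_lt] at hcon
    exact h2 ⟨⟨h1, hcon.2⟩, hcon.1⟩
  · rintro (h | h)
    · exact ⟨(hVsub h).1.le, fun h' => h'.2 h⟩
    · have h1 : (1 : ℝ) < ℓ := h
      exact ⟨mem_Ici.mpr (by linarith), fun h' => absurd h'.1.2 (not_le.mpr h1)⟩

end Pool.Agent.Results.MP_174dab_an.ChordSet
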